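import Mathlib

/-!
# Definitions of the local part (critical values of a deformation of `e(x) y²`)

Coordinates `(x, y, t)` on `ℂ³`, `F (x, y, 0) = e x * y ^ 2` near the line `y = t = 0`.
-/

set_option autoImplicit false

open Filter Asymptotics Topology Metric

namespace Pool.Agent.Lib.MP_d4bba2_ag.Loc

/-- the derivative in the variable `x` of a function of `(x, y, t)` -/
noncomputable def dx (F : ℂ × ℂ × ℂ → ℂ) (p : ℂ × ℂ × ℂ) : ℂ := fderiv ℂ F p (1, 0, 0)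

/-- the derivative in the variable `y` of a function of `(x, y, t)` -/
noncomputable def dy (F : ℂ × ℂ × ℂ → ℂ) (p : ℂ × ℂ × ℂ) : ℂ := fderiv ℂ F p (0, 1, 0)

/-- the derivative in the variable `t` of a function of `(x, t)` -/
noncomputable def dt (A : ℂ × ℂ → ℂ) (q : ℂ × ℂ) : ℂ := fderiv ℂ A q (0, 1)

/-- the coefficient of `t ^ j` in the expansion of `A (x, t)` at `t = 0` -/
noncomputable def tc (A : ℂ × ℂ → ℂ) (j : ℕ) (x : ℂ) : ℂ :=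
  (dt^[j] A) (x, 0) / (j.factorial : ℂ)

/-- `F` is analytic along `U × 0 × 0` and equals `e x * y ^ 2` at `t = 0` -/
structure Nf (F : ℂ × ℂ × ℂ → ℂ) (e : ℂ → ℂ) (U : Set ℂ) : Prop where
  op : IsOpen U
  an : ∀ x ∈ U, AnalyticAt ℂ F (x, 0, 0)
  ea : ∀ x ∈ U, AnalyticAt ℂ e x
  nf : ∀ x ∈ U, ∀ᶠ q : ℂ × ℂ in 𝓝 (x, 0), F (q.1, q.2, 0) = e q.1 * q.2 ^ 2

/-- `R (x, t)` is the zero of `∂F/∂y` near `(x₀, 0, 0)` -/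
structure Root (F : ℂ × ℂ × ℂ → ℂ) (x₀ : ℂ) (R : ℂ × ℂ → ℂ) : Prop where
  anF : AnalyticAt ℂ F (x₀, 0, 0)
  an : AnalyticAt ℂ R (x₀, 0)
  zero : ∀ᶠ x in 𝓝 x₀, R (x, 0) = 0
  root : ∀ᶠ q : ℂ × ℂ in 𝓝 (x₀, 0), dy F (q.1, R q, q.2) = 0
  lip : ∃ C : ℝ, ∀ᶠ p : ℂ × ℂ × ℂ in 𝓝 (x₀, 0, 0),
    ‖p.2.1 - R (p.1, p.2.2)‖ ≤ C * ‖dy F p‖
  qua : ∃ C : ℝ, ∀ᶠ p : ℂ × ℂ × ℂ in 𝓝 (x₀, 0, 0),
    ‖F p - F (p.1, R (p.1, p.2.2), p.2.2)‖ ≤ C * ‖dy F p‖ ^ 2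

/-- the value of `F` at the zero of `∂F/∂y` -/
def val (F : ℂ × ℂ × ℂ → ℂ) (R : ℂ × ℂ → ℂ) (q : ℂ × ℂ) : ℂ := F (q.1, R q, q.2)

/-- an arc of order `n` through `(x, 0, 0)`: the derivatives in `x` and `y` are `O(t ^ n)` along it
and the value is `∑_{i < n} k i t ^ i + c t ^ n + O(t ^ (n + 1))` -/
def Arc (F : ℂ × ℂ × ℂ → ℂ) (x : ℂ) (n : ℕ) (k : ℕ → ℂ) (c : ℂ) : Prop :=
  ∃ z w : ℂ → ℂ, AnalyticAt ℂ z 0 ∧ AnalyticAt ℂ w 0 ∧ z 0 = x ∧ w 0 = 0 ∧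
    (fun t => dx F (z t, w t, t)) =O[𝓝 0] (fun t : ℂ => t ^ n) ∧
    (fun t => dy F (z t, w t, t)) =O[𝓝 0] (fun t : ℂ => t ^ n) ∧
    (fun t => F (z t, w t, t) - (∑ i ∈ Finset.range n, k i * t ^ i + c * t ^ n))
      =O[𝓝 0] (fun t : ℂ => t ^ (n + 1))

end Pool.Agent.Lib.MP_d4bba2_ag.Loc
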