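import Pool.Agent.Lib.MP_d4bba2_ag.Loc.Par

/-!
# Jet: a critical point is on the curve

`N p c = fderiv ℂ F p (1, c, 0) = dx F p + c * dy F p`. `D2 (p, c) = dy (dy (dx F)) p + c * dy (dy (dy F)) p` is continuous at `((0, 0, 0), 0)` with value
`2 e'(0) = 2 d` (`nf_dx`). Near it: `‖D2 - 2 d‖ ≤ ‖d‖ / 2`. For fixed `x`, `t`, `c` the function `φ w = dx F (x, w, t) + c * dy F (x, w, t)` has
`φ' = dy (dx F) + c dy (dy F)`, `φ'' = D2`. `φ σ = 0`, `φ' σ = 0` (hypotheses), mean value inequality twice on the segment from `σ` to `w`: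
`‖φ' u - 2 d (u - σ)‖ ≤ (‖d‖/2) ‖u - σ‖`, `‖φ w - d (w - σ) ^ 2‖ ≤ (‖d‖ / 2) ‖w - σ‖ ^ 2`; `φ w = 0` at a critical point, so `w = σ`.
-/

set_option autoImplicit false

open Filter Asymptotics Topology Metric

namespace Pool.Agent.Lib.MP_d4bba2_ag.Loc

/-- value of the third derivative at the origin -/
private theorem Jet_val {F : ℂ × ℂ × ℂ → ℂ} {e : ℂ → ℂ} {U : Set ℂ} (L : Nf F e U)
    (h0 : (0 : ℂ) ∈ U) : dy (dy (dx F)) (0, 0, 0) = 2 * deriv e 0 := by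
  have hA : AnalyticAt ℂ F (0, 0, 0) := L.an 0 h0
  have hx1 : AnalyticAt ℂ (dx F) (0, 0, 0) := an_dx hA
  have hx2 : AnalyticAt ℂ (dy (dx F)) (0, 0, 0) := an_dy hx1
  -- the line `(0, y, 0)`
  have hline : ContinuousAt (fun y : ℂ => ((0 : ℂ), y, (0 : ℂ))) 0 := by fun_prop
  have h1 : ∀ᶠ y : ℂ in 𝓝 0, dx F (0, y, 0) = deriv e 0 * y ^ 2 := by
    have h2 : ContinuousAt (fun y : ℂ => ((0 : ℂ), y)) 0 := by fun_prop
    exact h2.eventually (nf_dx L h0)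
  have h3 : ∀ᶠ y : ℂ in 𝓝 0, AnalyticAt ℂ (dx F) (0, y, 0) :=
    hline.eventually hx1.eventually_analyticAt
  have h4 : ∀ᶠ y : ℂ in 𝓝 0, dy (dx F) (0, y, 0) = deriv e 0 * (2 * y) := by
    filter_upwards [h1.eventually_nhds, h3] with y hy hy3
    have h5 : HasDerivAt (fun u => dx F (0, u, 0)) (dy (dx F) (0, y, 0)) y := hd_y hy3
    have h6 : HasDerivAt (fun u : ℂ => deriv e 0 * u ^ 2) (deriv e 0 * (2 * y)) y := by
      have := (hasDerivAt_pow 2 y).const_mul (deriv e 0)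
      simpa using this
    exact (h5.congr_of_eventuallyEq (hy.mono fun u hu => hu.symm)).unique h6
  have h7 : HasDerivAt (fun u => dy (dx F) (0, u, 0)) (dy (dy (dx F)) (0, 0, 0)) 0 := hd_y hx2
  have h8 : HasDerivAt (fun u : ℂ => deriv e 0 * (2 * u)) (2 * deriv e 0) 0 := by
    have := ((hasDerivAt_id (0 : ℂ)).const_mul (2 : ℂ)).const_mul (deriv e 0)
    simp only [id_eq, mul_one] at this
    rw [mul_comm]
    exact this
  exact (h7.congr_of_eventuallyEq (h4.mono fun u hu => hu.symm)).unique h8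

theorem jet {F : ℂ × ℂ × ℂ → ℂ} {e : ℂ → ℂ} {U : Set ℂ} (L : Nf F e U) (h0 : (0 : ℂ) ∈ U)
    (hd : deriv e 0 ≠ 0) :
    ∃ ε : ℝ, 0 < ε ∧ ∀ x t σ c w : ℂ, ‖x‖ < ε → ‖t‖ < ε → ‖σ‖ < ε → ‖c‖ < ε → ‖w‖ < ε →
      dx F (x, σ, t) + c * dy F (x, σ, t) = 0 →
      dy (dx F) (x, σ, t) + c * dy (dy F) (x, σ, t) = 0 →
      dx F (x, w, t) = 0 → dy F (x, w, t) = 0 → w = σ := by
  have hA : AnalyticAt ℂ F (0, 0, 0) := L.an 0 h0
  have hx1 : AnalyticAt ℂ (dx F) (0, 0, 0) := an_dx hA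
  have hx2 : AnalyticAt ℂ (dy (dx F)) (0, 0, 0) := an_dy hx1
  have hx3 : AnalyticAt ℂ (dy (dy (dx F))) (0, 0, 0) := an_dy hx2
  have hy1 : AnalyticAt ℂ (dy F) (0, 0, 0) := an_dy hA
  have hy2 : AnalyticAt ℂ (dy (dy F)) (0, 0, 0) := an_dy hy1
  have hy3 : AnalyticAt ℂ (dy (dy (dy F))) (0, 0, 0) := an_dy hy2
  have hdpos : 0 < ‖deriv e 0‖ := norm_pos_iff.2 hd
  have hcont : ContinuousAt (fun q : (ℂ × ℂ × ℂ) × ℂ =>
      dy (dy (dx F)) q.1 + q.2 * dy (dy (dy F)) q.1) ((0, 0, 0), 0) := by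
    have a1 : ContinuousAt (fun q : (ℂ × ℂ × ℂ) × ℂ => dy (dy (dx F)) q.1) ((0, 0, 0), 0) :=
      ContinuousAt.comp (f := fun q : (ℂ × ℂ × ℂ) × ℂ => q.1) (x := ((0, 0, 0), 0))
        hx3.continuousAt continuousAt_fst
    have a2 : ContinuousAt (fun q : (ℂ × ℂ × ℂ) × ℂ => dy (dy (dy F)) q.1) ((0, 0, 0), 0) :=
      ContinuousAt.comp (f := fun q : (ℂ × ℂ × ℂ) × ℂ => q.1) (x := ((0, 0, 0), 0))
        hy3.continuousAt continuousAt_fst
    exact a1.add (continuousAt_snd.mul a2)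
  have hD : ∀ᶠ q : (ℂ × ℂ × ℂ) × ℂ in 𝓝 ((0, 0, 0), 0),
      ‖dy (dy (dx F)) q.1 + q.2 * dy (dy (dy F)) q.1 - 2 * deriv e 0‖ < ‖deriv e 0‖ / 2 := by
    have h1 : Tendsto (fun q : (ℂ × ℂ × ℂ) × ℂ =>
        dy (dy (dx F)) q.1 + q.2 * dy (dy (dy F)) q.1) (𝓝 ((0, 0, 0), 0)) (𝓝 (2 * deriv e 0)) := by
      have := hcont.tendsto
      simp only [zero_mul, add_zero] at this
      rw [Jet_val L h0] at this
      exact this
    have h2 := Metric.tendsto_nhds.1 h1 (‖deriv e 0‖ / 2) (by positivity)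
    filter_upwards [h2] with q hq
    rwa [dist_eq_norm] at hq
  have hAn : ∀ᶠ q : (ℂ × ℂ × ℂ) × ℂ in 𝓝 ((0, 0, 0), 0), AnalyticAt ℂ (dx F) q.1 ∧
      AnalyticAt ℂ (dy F) q.1 ∧ AnalyticAt ℂ (dy (dx F)) q.1 ∧ AnalyticAt ℂ (dy (dy F)) q.1 := by
    have h1 : ∀ᶠ p : ℂ × ℂ × ℂ in 𝓝 (0, 0, 0), AnalyticAt ℂ (dx F) p ∧ AnalyticAt ℂ (dy F) p ∧
        AnalyticAt ℂ (dy (dx F)) p ∧ AnalyticAt ℂ (dy (dy F)) p := by
      filter_upwards [hx1.eventually_analyticAt, hy1.eventually_analyticAt,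
        hx2.eventually_analyticAt, hy2.eventually_analyticAt] with p a b c d
      exact ⟨a, b, c, d⟩
    exact (continuousAt_fst (p := (((0 : ℂ), (0 : ℂ), (0 : ℂ)), (0 : ℂ)))).eventually h1
  obtain ⟨ε, hε, hε2⟩ := Metric.eventually_nhds_iff.1 (hD.and hAn)
  refine ⟨ε, hε, fun x t σ c w hx ht hσ hc hw e1 e2 e3 e4 => ?_⟩
  have hin : ∀ u : ℂ, ‖u‖ < ε → dist (((x, u, t), c) : (ℂ × ℂ × ℂ) × ℂ) ((0, 0, 0), 0) < ε := by
    intro u hu
    rw [Prod.dist_eq, Prod.dist_eq, Prod.dist_eq]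
    simp only [dist_zero_right, max_lt_iff]
    exact ⟨⟨hx, hu, ht⟩, hc⟩
  have hcases := fun u (hu : ‖u‖ < ε) => hε2 (hin u hu)
  simp only at hcases
  -- derivative of the first function
  have hφ : ∀ u : ℂ, ‖u‖ < ε → HasDerivAt (fun u => dx F (x, u, t) + c * dy F (x, u, t))
      (dy (dx F) (x, u, t) + c * dy (dy F) (x, u, t)) u := by
    intro u hu
    have h1 := hcases u hu
    exact (hd_y h1.2.1).add ((hd_y h1.2.2.1).const_mul c)
  have hφ' : ∀ u : ℂ, ‖u‖ < ε → HasDerivAt (fun u => dy (dx F) (x, u, t) + c * dy (dy F) (x, u, t))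
      (dy (dy (dx F)) (x, u, t) + c * dy (dy (dy F)) (x, u, t)) u := by
    intro u hu
    have h1 := hcases u hu
    exact (hd_y h1.2.2.2.1).add ((hd_y h1.2.2.2.2).const_mul c)
  -- first mean value inequality
  have m1 : ∀ u : ℂ, ‖u‖ < ε →
      ‖dy (dx F) (x, u, t) + c * dy (dy F) (x, u, t) - 2 * deriv e 0 * (u - σ)‖ ≤
        ‖deriv e 0‖ / 2 * ‖u - σ‖ := by
    intro u hu
    have h1 := Convex.norm_image_sub_le_of_norm_hasDerivWithin_le (𝕜 := ℂ) (s := ball (0 : ℂ) ε)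
      (f := fun u => dy (dx F) (x, u, t) + c * dy (dy F) (x, u, t) - 2 * deriv e 0 * (u - σ))
      (f' := fun u => dy (dy (dx F)) (x, u, t) + c * dy (dy (dy F)) (x, u, t) - 2 * deriv e 0)
      (C := ‖deriv e 0‖ / 2) (x := σ) (y := u) ?_ ?_ (convex_ball _ _) ?_ ?_
    · simpa [e2] using h1
    · intro v hv
      rw [mem_ball_zero_iff] at hv
      have h2 : HasDerivAt (fun u : ℂ => 2 * deriv e 0 * (u - σ)) (2 * deriv e 0) v := by
        have := ((hasDerivAt_id v).sub_const σ).const_mul (2 * deriv e 0)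
        simpa using this
      exact ((hφ' v hv).sub h2).hasDerivWithinAt
    · intro v hv
      rw [mem_ball_zero_iff] at hv
      exact (hcases v hv).1.le
    · exact mem_ball_zero_iff.2 hσ
    · exact mem_ball_zero_iff.2 hu
  -- second mean value inequality
  have m2 : ‖deriv e 0 * (w - σ) ^ 2‖ ≤ ‖deriv e 0‖ / 2 * ‖w - σ‖ * ‖w - σ‖ := by
    have h1 := Convex.norm_image_sub_le_of_norm_hasDerivWithin_le (𝕜 := ℂ)
      (s := ball (0 : ℂ) ε ∩ closedBall σ ‖w - σ‖)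
      (f := fun u => dx F (x, u, t) + c * dy F (x, u, t) - deriv e 0 * (u - σ) ^ 2)
      (f' := fun u => dy (dx F) (x, u, t) + c * dy (dy F) (x, u, t) - 2 * deriv e 0 * (u - σ))
      (C := ‖deriv e 0‖ / 2 * ‖w - σ‖) (x := σ) (y := w) ?_ ?_
      ((convex_ball _ _).inter (convex_closedBall _ _)) ?_ ?_
    · simpa [e1, e3, e4] using h1
    · intro v hv
      have hv1 := mem_ball_zero_iff.1 hv.1
      have h2 : HasDerivAt (fun u : ℂ => deriv e 0 * (u - σ) ^ 2) (2 * deriv e 0 * (v - σ)) v := by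
        have := (((hasDerivAt_id v).sub_const σ).pow 2).const_mul (deriv e 0)
        refine this.congr_deriv ?_
        simp only [id_eq, mul_one]
        push_cast
        ring
      exact ((hφ v hv1).sub h2).hasDerivWithinAt
    · intro v hv
      have hv1 := mem_ball_zero_iff.1 hv.1
      have hv2 : ‖v - σ‖ ≤ ‖w - σ‖ := by
        have := hv.2
        rwa [mem_closedBall, dist_eq_norm] at this
      exact (m1 v hv1).trans (mul_le_mul_of_nonneg_left hv2 (by positivity))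
    · exact ⟨mem_ball_zero_iff.2 hσ, mem_closedBall_self (norm_nonneg _)⟩
    · refine ⟨mem_ball_zero_iff.2 hw, ?_⟩
      rw [mem_closedBall, dist_eq_norm]
  rw [norm_mul, norm_pow] at m2
  have m3 : ‖w - σ‖ ^ 2 ≤ 0 := by
    have : ‖deriv e 0‖ * ‖w - σ‖ ^ 2 ≤ ‖deriv e 0‖ / 2 * ‖w - σ‖ ^ 2 := by nlinarith
    by_contra hcon
    push Not at hcon
    nlinarith
  have m4 : ‖w - σ‖ = 0 := by
    have := norm_nonneg (w - σ)
    nlinarith [sq_nonneg ‖w - σ‖]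
  exact sub_eq_zero.1 (norm_eq_zero.1 m4)

/-- derivative along a curve -/
theorem hd_curve {F : ℂ × ℂ × ℂ → ℂ} {f : ℂ → ℂ} {x t c : ℂ} (hF : AnalyticAt ℂ F (x, f x, t))
    (hf : HasDerivAt f c x) :
    HasDerivAt (fun u => F (u, f u, t)) (dx F (x, f x, t) + c * dy F (x, f x, t)) x := by
  have h1 : HasDerivAt (fun u : ℂ => (u, f u, t)) ((1 : ℂ), c, (0 : ℂ)) x :=
    (hasDerivAt_id x).prodMk (hf.prodMk (hasDerivAt_const x t))
  have h2 : HasFDerivAt F (fderiv ℂ F (x, f x, t)) (x, f x, t) :=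
    hF.differentiableAt.hasFDerivAt
  have h3 := h2.comp_hasDerivAt x h1
  have e1 : fderiv ℂ F (x, f x, t) ((1 : ℂ), c, (0 : ℂ)) =
      dx F (x, f x, t) + c * dy F (x, f x, t) := by
    unfold dx dy
    rw [← smul_eq_mul, ← map_smul, ← map_add]
    congr 1
    simp
  rw [e1] at h3
  exact h3

/-- the mixed derivatives agree -/
theorem dxy {F : ℂ × ℂ × ℂ → ℂ} {p : ℂ × ℂ × ℂ} (hF : AnalyticAt ℂ F p) :
    dx (dy F) p = dy (dx F) p := by
  have h1 : IsSymmSndFDerivAt ℂ F p := by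
    have : ContDiffAt ℂ ⊤ F p := hF.contDiffAt
    exact this.isSymmSndFDerivAt (by simp)
  have h2 : DifferentiableAt ℂ (fderiv ℂ F) p := hF.fderiv.differentiableAt
  have e1 : dx (dy F) p = fderiv ℂ (fderiv ℂ F) p (1, 0, 0) (0, 1, 0) := by
    unfold dx dy
    have : (fun q : ℂ × ℂ × ℂ => fderiv ℂ F q (0, 1, 0)) = fun q => (fderiv ℂ F q) (0, 1, 0) := rfl
    rw [fderiv_clm_apply h2 (differentiableAt_const _)]
    simp
  have e2 : dy (dx F) p = fderiv ℂ (fderiv ℂ F) p (0, 1, 0) (1, 0, 0) := by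
    unfold dx dy
    rw [fderiv_clm_apply h2 (differentiableAt_const _)]
    simp
  rw [e1, e2]
  exact h1 _ _

end Pool.Agent.Lib.MP_d4bba2_ag.Loc
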