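import Pool.Agent.Lib.MP_d4bba2_ag.Loc.Defs

/-!
# Par: partial derivatives in `x`, `y`

`an_dx`, `an_dy`: `AnalyticAt.fderiv`. `hd_y`: the function `y ↦ F (x, y, t)` has the derivative `dy F (x, y, t)` (chain rule).
`hd_x` the same for `x`. `nf_dy`, `nf_dyy`, `nf_x`: derivatives of the identity `F (x, y, 0) = e x * y ^ 2`, valid near `(x₀, 0)`
(`Filter.Eventually.eventually_nhds`, derivatives of eventually equal functions of one variable).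
`lip_y`: an analytic function is Lipschitz near a point. `q_one`: the derivative in `y` of `dy F (x, y, t) - 2 e(x) y` is
`dy (dy F) (x, y, t) - 2 e x`, it is `0` for `t = 0` and has a bounded derivative in `t`, so its norm is at most `C ‖t‖`; mean value
inequality in `y`. `q_two`: mean value inequality again for `y ↦ F (x, y, t) - dy F (x, y₂, t) (y - y₂) - e x (y - y₂) ^ 2`.
-/

set_option autoImplicit false

open Filter Asymptotics Topology Metric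

namespace Pool.Agent.Lib.MP_d4bba2_ag.Loc

theorem an_dx {F : ℂ × ℂ × ℂ → ℂ} {p : ℂ × ℂ × ℂ} (h : AnalyticAt ℂ F p) : AnalyticAt ℂ (dx F) p := by
  exact ((ContinuousLinearMap.apply ℂ ℂ ((1, 0, 0) : ℂ × ℂ × ℂ)).analyticAt _).comp h.fderiv

theorem an_dy {F : ℂ × ℂ × ℂ → ℂ} {p : ℂ × ℂ × ℂ} (h : AnalyticAt ℂ F p) : AnalyticAt ℂ (dy F) p := by
  exact ((ContinuousLinearMap.apply ℂ ℂ ((0, 1, 0) : ℂ × ℂ × ℂ)).analyticAt _).comp h.fderiv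

theorem hd_x {F : ℂ × ℂ × ℂ → ℂ} {x y t : ℂ} (h : AnalyticAt ℂ F (x, y, t)) :
    HasDerivAt (fun u => F (u, y, t)) (dx F (x, y, t)) x := by
  have h1 : HasDerivAt (fun u : ℂ => (u, y, t)) ((1, 0, 0) : ℂ × ℂ × ℂ) x :=
    (hasDerivAt_id x).prodMk (hasDerivAt_const x (y, t))
  exact h.differentiableAt.hasFDerivAt.comp_hasDerivAt x h1

theorem hd_y {F : ℂ × ℂ × ℂ → ℂ} {x y t : ℂ} (h : AnalyticAt ℂ F (x, y, t)) :
    HasDerivAt (fun u => F (x, u, t)) (dy F (x, y, t)) y := by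
  have h1 : HasDerivAt (fun u : ℂ => (x, u, t)) ((0, 1, 0) : ℂ × ℂ × ℂ) y :=
    (hasDerivAt_const y x).prodMk ((hasDerivAt_id y).prodMk (hasDerivAt_const y t))
  exact h.differentiableAt.hasFDerivAt.comp_hasDerivAt y h1

private lemma par_cont (x : ℂ) :
    Tendsto (fun q : ℂ × ℂ => ((q.1, q.2, 0) : ℂ × ℂ × ℂ)) (𝓝 (x, 0)) (𝓝 (x, 0, 0)) := by
  have : Continuous (fun q : ℂ × ℂ => ((q.1, q.2, 0) : ℂ × ℂ × ℂ)) := by fun_prop
  exact this.tendsto (x, 0)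

private lemma par_line1 (q : ℂ × ℂ) : Tendsto (fun u : ℂ => (u, q.2)) (𝓝 q.1) (𝓝 q) := by
  have : Continuous (fun u : ℂ => (u, q.2)) := by fun_prop
  exact this.tendsto q.1

private lemma par_line2 (q : ℂ × ℂ) : Tendsto (fun u : ℂ => (q.1, u)) (𝓝 q.2) (𝓝 q) := by
  have : Continuous (fun u : ℂ => (q.1, u)) := by fun_prop
  exact this.tendsto q.2

/-- derivative in `y` of a function which is known at `t = 0` -/
private lemma par_y {G : ℂ × ℂ × ℂ → ℂ} {g : ℂ × ℂ → ℂ} {g' : ℂ × ℂ → ℂ} {x : ℂ}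
    (hG : AnalyticAt ℂ G (x, 0, 0)) (h : ∀ᶠ q : ℂ × ℂ in 𝓝 (x, 0), G (q.1, q.2, 0) = g q)
    (hg : ∀ q : ℂ × ℂ, HasDerivAt (fun u => g (q.1, u)) (g' q) q.2) :
    ∀ᶠ q : ℂ × ℂ in 𝓝 (x, 0), dy G (q.1, q.2, 0) = g' q := by
  filter_upwards [h.eventually_nhds, (par_cont x).eventually hG.eventually_analyticAt] with q hq hq2
  have h1 := hd_y hq2
  have h2 : (fun u => G (q.1, u, 0)) =ᶠ[𝓝 q.2] fun u => g (q.1, u) :=
    (par_line2 q).eventually hq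
  exact h1.unique ((hg q).congr_of_eventuallyEq h2)

theorem nf_dy {F : ℂ × ℂ × ℂ → ℂ} {e : ℂ → ℂ} {U : Set ℂ} (L : Nf F e U) {x : ℂ} (hx : x ∈ U) :
    ∀ᶠ q : ℂ × ℂ in 𝓝 (x, 0), dy F (q.1, q.2, 0) = 2 * e q.1 * q.2 := by
  refine par_y (g := fun q => e q.1 * q.2 ^ 2) (g' := fun q => 2 * e q.1 * q.2) (L.an x hx)
    (L.nf x hx) ?_
  intro q
  have h1 := (hasDerivAt_pow 2 q.2).const_mul (e q.1)
  have h2 : e q.1 * (((2 : ℕ) : ℂ) * q.2 ^ (2 - 1)) = 2 * e q.1 * q.2 := by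
    norm_num
    ring
  rw [h2] at h1
  exact h1

theorem nf_dyy {F : ℂ × ℂ × ℂ → ℂ} {e : ℂ → ℂ} {U : Set ℂ} (L : Nf F e U) {x : ℂ} (hx : x ∈ U) :
    ∀ᶠ q : ℂ × ℂ in 𝓝 (x, 0), dy (dy F) (q.1, q.2, 0) = 2 * e q.1 := by
  refine par_y (g := fun q => 2 * e q.1 * q.2) (g' := fun q => 2 * e q.1) (an_dy (L.an x hx))
    (nf_dy L hx) ?_
  intro q
  have h1 := (hasDerivAt_id q.2).const_mul (2 * e q.1)
  rw [mul_one] at h1
  exact h1

theorem nf_dx {F : ℂ × ℂ × ℂ → ℂ} {e : ℂ → ℂ} {U : Set ℂ} (L : Nf F e U) {x : ℂ} (hx : x ∈ U) :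
    ∀ᶠ q : ℂ × ℂ in 𝓝 (x, 0), dx F (q.1, q.2, 0) = deriv e q.1 * q.2 ^ 2 := by
  have he : ∀ᶠ q : ℂ × ℂ in 𝓝 (x, 0), AnalyticAt ℂ e q.1 := by
    have h1 : Tendsto (fun q : ℂ × ℂ => q.1) (𝓝 (x, 0)) (𝓝 x) := continuous_fst.tendsto (x, 0)
    exact h1.eventually (L.ea x hx).eventually_analyticAt
  filter_upwards [(L.nf x hx).eventually_nhds,
    (par_cont x).eventually (L.an x hx).eventually_analyticAt, he] with q hq hq2 hq3
  have h1 := hd_x hq2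
  have h2 : (fun u => F (u, q.2, 0)) =ᶠ[𝓝 q.1] fun u => e u * q.2 ^ 2 :=
    (par_line1 q).eventually hq
  have h3 : HasDerivAt (fun u => e u * q.2 ^ 2) (deriv e q.1 * q.2 ^ 2) q.1 :=
    (hq3.differentiableAt.hasDerivAt).mul_const (q.2 ^ 2)
  exact h1.unique (h3.congr_of_eventuallyEq h2)

/-- an analytic function is Lipschitz near a point -/
theorem lip_at {E : Type*} [NormedAddCommGroup E] [NormedSpace ℂ E] {F : E → ℂ} {p : E}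
    (h : AnalyticAt ℂ F p) :
    ∃ C : ℝ, 0 ≤ C ∧ ∀ᶠ q : E × E in 𝓝 (p, p), ‖F q.1 - F q.2‖ ≤ C * ‖q.1 - q.2‖ := by
  obtain ⟨C, hC, hb⟩ := h.hasStrictFDerivAt.isBigO_sub.exists_nonneg
  exact ⟨C, hC, hb.bound⟩

private lemma par_K {F : ℂ × ℂ × ℂ → ℂ} {e : ℂ → ℂ} {U : Set ℂ} (L : Nf F e U) {x : ℂ}
    (hx : x ∈ U) :
    ∃ C : ℝ, 0 ≤ C ∧ ∀ᶠ p : ℂ × ℂ in 𝓝 (0, 0),
      ‖dy (dy F) (x, p.1, p.2) - 2 * e x‖ ≤ C * ‖p.2‖ := by
  have h1 : AnalyticAt ℂ (dy (dy F)) (x, 0, 0) := an_dy (an_dy (L.an x hx))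
  obtain ⟨C, hC, hb⟩ := lip_at h1
  refine ⟨C, hC, ?_⟩
  have h2 : Tendsto (fun p : ℂ × ℂ => (((x, p.1, p.2), (x, p.1, 0)) :
      (ℂ × ℂ × ℂ) × (ℂ × ℂ × ℂ))) (𝓝 (0, 0)) (𝓝 ((x, 0, 0), (x, 0, 0))) := by
    have : Continuous (fun p : ℂ × ℂ => (((x, p.1, p.2), (x, p.1, 0)) :
      (ℂ × ℂ × ℂ) × (ℂ × ℂ × ℂ))) := by fun_prop
    exact this.tendsto (0, 0)
  have h3 : Tendsto (fun p : ℂ × ℂ => ((x, p.1) : ℂ × ℂ)) (𝓝 (0, 0)) (𝓝 (x, 0)) := by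
    have : Continuous (fun p : ℂ × ℂ => ((x, p.1) : ℂ × ℂ)) := by fun_prop
    exact this.tendsto (0, 0)
  filter_upwards [h2.eventually hb, h3.eventually (nf_dyy L hx)] with p hp hp2
  rw [hp2] at hp
  refine hp.trans (le_of_eq ?_)
  congr 1
  have h4 : (((x, p.1, p.2) : ℂ × ℂ × ℂ) - (x, p.1, 0)) = (0, 0, p.2) := by
    ext <;> simp
  rw [h4, Prod.norm_def, Prod.norm_def]
  simp

theorem q_one {F : ℂ × ℂ × ℂ → ℂ} {e : ℂ → ℂ} {U : Set ℂ} (L : Nf F e U) {x : ℂ} (hx : x ∈ U) :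
    ∃ C : ℝ, 0 ≤ C ∧ ∀ᶠ q : ℂ × ℂ × ℂ in 𝓝 (0, 0, 0),
      ‖dy F (x, q.1, q.2.2) - dy F (x, q.2.1, q.2.2) - 2 * e x * (q.1 - q.2.1)‖
        ≤ C * ‖q.2.2‖ * ‖q.1 - q.2.1‖ := by
  obtain ⟨C, hC, hK⟩ := par_K L hx
  refine ⟨C, hC, ?_⟩
  have h2 : Tendsto (fun p : ℂ × ℂ => ((x, p.1, p.2) : ℂ × ℂ × ℂ)) (𝓝 (0, 0)) (𝓝 (x, 0, 0)) := by
    have : Continuous (fun p : ℂ × ℂ => ((x, p.1, p.2) : ℂ × ℂ × ℂ)) := by fun_prop
    exact this.tendsto (0, 0)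
  obtain ⟨r, hr, hball⟩ := Metric.eventually_nhds_iff.mp
    (hK.and (h2.eventually (an_dy (L.an x hx)).eventually_analyticAt))
  have hbig : ∀ᶠ q : ℂ × ℂ × ℂ in 𝓝 (0, 0, 0), dist q (0, 0, 0) < r :=
    Metric.eventually_nhds_iff.mpr ⟨r, hr, fun q hq => hq⟩
  filter_upwards [hbig] with q hq
  rw [dist_eq_norm] at hq
  have hq' : ‖q‖ < r := by
    rwa [show ((0, 0, 0) : ℂ × ℂ × ℂ) = 0 from rfl, sub_zero] at hq
  have hq1 : ‖q.1‖ < r := (norm_fst_le q).trans_lt hq'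
  have hq2 : ‖q.2.1‖ < r := ((norm_fst_le q.2).trans (norm_snd_le q)).trans_lt hq'
  have hq3 : ‖q.2.2‖ < r := ((norm_snd_le q.2).trans (norm_snd_le q)).trans_lt hq'
  have hin : ∀ y ∈ ball (0 : ℂ) r, ‖dy (dy F) (x, y, q.2.2) - 2 * e x‖ ≤ C * ‖q.2.2‖ ∧
      AnalyticAt ℂ (dy F) (x, y, q.2.2) := by
    intro y hy
    rw [mem_ball_zero_iff] at hy
    refine hball (y := (y, q.2.2)) ?_
    rw [dist_eq_norm]
    have : ((y, q.2.2) : ℂ × ℂ) - (0, 0) = (y, q.2.2) := by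
      ext <;> simp
    rw [this, Prod.norm_def]
    exact max_lt hy hq3
  have hmv := Convex.norm_image_sub_le_of_norm_hasDerivWithin_le
    (f := fun y => dy F (x, y, q.2.2) - 2 * e x * y)
    (f' := fun y => dy (dy F) (x, y, q.2.2) - 2 * e x) (C := C * ‖q.2.2‖) (s := ball (0 : ℂ) r)
    (x := q.2.1) (y := q.1)
    (by
      intro y hy
      have h5 := (hd_y (hin y hy).2).sub ((hasDerivAt_id y).const_mul (2 * e x))
      rw [mul_one] at h5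
      exact h5.hasDerivWithinAt)
    (fun y hy => (hin y hy).1) (convex_ball _ _) (mem_ball_zero_iff.mpr hq2)
    (mem_ball_zero_iff.mpr hq1)
  refine le_trans (le_of_eq ?_) hmv
  congr 1
  ring

theorem q_two {F : ℂ × ℂ × ℂ → ℂ} {e : ℂ → ℂ} {U : Set ℂ} (L : Nf F e U) {x : ℂ} (hx : x ∈ U) :
    ∃ C : ℝ, 0 ≤ C ∧ ∀ᶠ q : ℂ × ℂ × ℂ in 𝓝 (0, 0, 0),
      ‖F (x, q.1, q.2.2) - F (x, q.2.1, q.2.2) - dy F (x, q.2.1, q.2.2) * (q.1 - q.2.1)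
          - e x * (q.1 - q.2.1) ^ 2‖
        ≤ C * ‖q.2.2‖ * ‖q.1 - q.2.1‖ ^ 2 := by
  obtain ⟨C, hC, h1⟩ := q_one L hx
  refine ⟨C, hC, ?_⟩
  have h2 : Tendsto (fun q : ℂ × ℂ × ℂ => ((x, q.1, q.2.2) : ℂ × ℂ × ℂ)) (𝓝 (0, 0, 0))
      (𝓝 (x, 0, 0)) := by
    have : Continuous (fun q : ℂ × ℂ × ℂ => ((x, q.1, q.2.2) : ℂ × ℂ × ℂ)) := by fun_prop
    exact this.tendsto (0, 0, 0)
  obtain ⟨r, hr, hball⟩ := Metric.eventually_nhds_iff.mp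
    (h1.and (h2.eventually (L.an x hx).eventually_analyticAt))
  have hbig : ∀ᶠ q : ℂ × ℂ × ℂ in 𝓝 (0, 0, 0), dist q (0, 0, 0) < r :=
    Metric.eventually_nhds_iff.mpr ⟨r, hr, fun q hq => hq⟩
  filter_upwards [hbig] with q hq
  rw [dist_eq_norm] at hq
  have hq' : ‖q‖ < r := by
    rwa [show ((0, 0, 0) : ℂ × ℂ × ℂ) = 0 from rfl, sub_zero] at hq
  have hq1 : ‖q.1‖ < r := (norm_fst_le q).trans_lt hq'
  have hq2 : ‖q.2.1‖ < r := ((norm_fst_le q.2).trans (norm_snd_le q)).trans_lt hq'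
  have hq3 : ‖q.2.2‖ < r := ((norm_snd_le q.2).trans (norm_snd_le q)).trans_lt hq'
  have hin : ∀ y ∈ ball (0 : ℂ) r,
      ‖dy F (x, y, q.2.2) - dy F (x, q.2.1, q.2.2) - 2 * e x * (y - q.2.1)‖
        ≤ C * ‖q.2.2‖ * ‖y - q.2.1‖ ∧ AnalyticAt ℂ F (x, y, q.2.2) := by
    intro y hy
    rw [mem_ball_zero_iff] at hy
    refine hball (y := (y, q.2.1, q.2.2)) ?_
    rw [dist_eq_norm]
    have : ((y, q.2.1, q.2.2) : ℂ × ℂ × ℂ) - (0, 0, 0) = (y, q.2.1, q.2.2) := by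
      ext <;> simp
    rw [this, Prod.norm_def, Prod.norm_def]
    exact max_lt hy (max_lt hq2 hq3)
  have hseg : segment ℝ q.2.1 q.1 ⊆ ball (0 : ℂ) r :=
    (convex_ball (0 : ℂ) r).segment_subset (mem_ball_zero_iff.mpr hq2) (mem_ball_zero_iff.mpr hq1)
  have hmv := Convex.norm_image_sub_le_of_norm_hasDerivWithin_le
    (f := fun y => F (x, y, q.2.2) - dy F (x, q.2.1, q.2.2) * (y - q.2.1) - e x * (y - q.2.1) ^ 2)
    (f' := fun y => dy F (x, y, q.2.2) - dy F (x, q.2.1, q.2.2) - 2 * e x * (y - q.2.1))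
    (C := C * ‖q.2.2‖ * ‖q.1 - q.2.1‖) (s := segment ℝ q.2.1 q.1)
    (x := q.2.1) (y := q.1)
    (by
      intro y hy
      have h6 : HasDerivAt (fun y : ℂ => y - q.2.1) 1 y := (hasDerivAt_id y).sub_const q.2.1
      have h7 := ((hd_y (hin y (hseg hy)).2).sub (h6.const_mul (dy F (x, q.2.1, q.2.2)))).sub
        ((h6.pow 2).const_mul (e x))
      have h8 : dy F (x, y, q.2.2) - dy F (x, q.2.1, q.2.2) * 1 -
          e x * (((2 : ℕ) : ℂ) * (y - q.2.1) ^ (2 - 1) * 1) =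
          dy F (x, y, q.2.2) - dy F (x, q.2.1, q.2.2) - 2 * e x * (y - q.2.1) := by
        norm_num
        ring
      rw [h8] at h7
      exact h7.hasDerivWithinAt)
    (by
      intro y hy
      refine (hin y (hseg hy)).1.trans ?_
      apply mul_le_mul_of_nonneg_left _ (by positivity)
      obtain ⟨a, b, ha, hb, hab, rfl⟩ := hy
      have h9 : a • q.2.1 + b • q.1 - q.2.1 = b • (q.1 - q.2.1) := by
        have : a = 1 - b := by linarith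
        rw [this, smul_sub, sub_smul, one_smul]
        ring
      rw [h9, norm_smul, Real.norm_of_nonneg hb]
      have hb1 : b ≤ 1 := by linarith
      nlinarith [norm_nonneg (q.1 - q.2.1)])
    (convex_segment _ _) (left_mem_segment ℝ _ _) (right_mem_segment ℝ _ _)
  have h10 : C * ‖q.2.2‖ * ‖q.1 - q.2.1‖ ^ 2 = C * ‖q.2.2‖ * ‖q.1 - q.2.1‖ * ‖q.1 - q.2.1‖ := by
    ring
  rw [h10]
  refine le_trans (le_of_eq ?_) hmv
  congr 1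
  ring

end Pool.Agent.Lib.MP_d4bba2_ag.Loc
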