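import Pool.Agent.Lib.MP_d4bba2_ag.Loc.Rv
import Pool.Agent.Lib.MP_d4bba2_ag.Loc.Star

/-!
# SerA: bounds of the coefficients

`coef_bd`: the power series of `f` at `0` on `ball 0 δ` (`DifferentiableOn.hasFPowerSeriesOnBall`, radius `δ' < δ`, or
`Complex.norm_iteratedDeriv_le_of_forall_mem_sphere_norm_le`): its coefficients are the `c j` by `uniq`, and they are bounded by `M / δ' ^ j` for
all `δ' < δ`; `δ' = δ / 2`.
`loc_bd`: `rho_ex` at `y₀`; there are a neighbourhood `V` of `y₀` and `δ > 0` with `R` analytic and bounded on `V × ball 0 δ`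
(`Metric.eventually_nhds_prod_iff` or `Filter.Eventually.prod_nhds`), and `root_near`. For `y ∈ V`: `close` (with `ρ = R (y, ·)`, `ps s m y`) gives
`R (y, t) - ps s m y t = O(t ^ m)` for all `m ≥ 1` and `coef_bd` applies.
`unif_bd`: compactness of `sphere 0 r'` (`IsCompact.elim_nhds_subcover` or `IsCompact.induction_on`), the bound for all `x` in the closed ball by the maximum
principle (`Complex.norm_le_of_forall_mem_frontier_norm_le`).
-/

set_option autoImplicit false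

open Filter Asymptotics Topology Metric

namespace Pool.Agent.Lib.MP_d4bba2_ag.Loc

theorem coef_bd {f : ℂ → ℂ} {δ M : ℝ} (hδ : 0 < δ) (hf : DifferentiableOn ℂ f (ball 0 δ))
    (hM : ∀ t ∈ ball (0 : ℂ) δ, ‖f t‖ ≤ M) {c : ℕ → ℂ}
    (h : ∀ n, (fun t => f t - ∑ j ∈ Finset.range n, c j * t ^ j) =O[𝓝 0] (fun t : ℂ => t ^ n)) (j : ℕ) :
    ‖c j‖ ≤ M / (δ / 2) ^ j := by
  have hδ2 : 0 < δ / 2 := by positivity
  have han : AnalyticAt ℂ f 0 := hf.analyticAt (ball_mem_nhds 0 hδ)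
  have hps := han.hasFPowerSeriesAt
  have h1 : ∀ n, (fun t => f t - ∑ i ∈ Finset.range n,
      (iteratedDeriv i f 0 / (i.factorial : ℂ)) * t ^ i) =O[𝓝 0] (fun t : ℂ => t ^ n) := by
    intro n
    have h2 := hps.isBigO_sub_partialSum_pow n
    refine IsBigO.trans (IsBigO.congr_left h2 fun t => ?_) ?_
    · rw [zero_add, FormalMultilinearSeries.partialSum]
      refine congrArg (fun z => f t - z) (Finset.sum_congr rfl fun i _ => ?_)
      rw [FormalMultilinearSeries.ofScalars_apply_eq, smul_eq_mul]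
    · refine IsBigO.of_bound 1 (Filter.Eventually.of_forall fun t => ?_)
      rw [norm_pow, norm_norm, norm_pow, one_mul]
  have h3 : (fun t : ℂ => ∑ i ∈ Finset.range (j + 1),
      (c i - iteratedDeriv i f 0 / (i.factorial : ℂ)) * t ^ i) =O[𝓝 0]
      (fun t : ℂ => t ^ (j + 1)) := by
    have h4 := (h1 (j + 1)).sub (h (j + 1))
    refine h4.congr_left fun t => ?_
    rw [sub_sub_sub_cancel_left, ← Finset.sum_sub_distrib]
    exact Finset.sum_congr rfl fun i _ => (sub_mul _ _ _).symm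
  have h5 := uniq h3 j (Nat.lt_succ_self j)
  rw [sub_eq_zero.1 h5]
  have h6 : DiffContOnCl ℂ f (ball 0 (δ / 2)) := by
    refine DifferentiableOn.diffContOnCl (hf.mono ?_)
    refine closure_ball_subset_closedBall.trans ?_
    exact closedBall_subset_ball (by linarith)
  have h7 := Complex.norm_iteratedDeriv_le_of_forall_mem_sphere_norm_le (C := M) j hδ2 h6
    (fun z hz => hM z (sphere_subset_closedBall.trans (closedBall_subset_ball (by linarith)) hz))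
  have hj : (0 : ℝ) < (j.factorial : ℝ) := by exact_mod_cast Nat.factorial_pos j
  rw [norm_div, Complex.norm_natCast, div_le_iff₀ hj]
  refine h7.trans (le_of_eq ?_)
  ring

theorem loc_bd {F : ℂ × ℂ × ℂ → ℂ} {e : ℂ → ℂ} {U : Set ℂ} (L : Nf F e U) {s : ℕ → ℂ → ℂ}
    (h0 : ∀ x ∈ U, s 0 x = 0)
    (h : ∀ m, 1 ≤ m → ∀ x ∈ U, (fun t => dy F (x, ∑ j ∈ Finset.range m, s j x * t ^ j, t))
      =O[𝓝 0] (fun t : ℂ => t ^ m)) {y₀ : ℂ} (hy : y₀ ∈ U) (he : e y₀ ≠ 0) :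
    ∃ δ M : ℝ, 0 < δ ∧ 0 ≤ M ∧ ∀ᶠ x in 𝓝 y₀, ∀ j, ‖s j x‖ ≤ M / δ ^ j := by
  obtain ⟨R, hR⟩ := rho_ex L hy he
  have h1 : ∀ᶠ q : ℂ × ℂ in 𝓝 (y₀, 0), AnalyticAt ℂ R q ∧ ‖R q‖ < ‖R (y₀, 0)‖ + 1 := by
    refine hR.an.eventually_analyticAt.and ?_
    have h2 : ContinuousAt (fun q => ‖R q‖) (y₀, 0) := hR.an.continuousAt.norm
    exact h2.eventually (gt_mem_nhds (lt_add_one _))
  obtain ⟨ε, hε, hεq⟩ := Metric.eventually_nhds_iff.1 h1
  refine ⟨ε / 2, ‖R (y₀, 0)‖ + 1, by positivity, by positivity, ?_⟩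
  filter_upwards [root_near hR, L.op.mem_nhds hy,
    (L.ea y₀ hy).continuousAt.eventually_ne he, ball_mem_nhds y₀ hε] with x hx1 hxU hxe hxb
  intro j
  have hball : ∀ t ∈ ball (0 : ℂ) ε, AnalyticAt ℂ R (x, t) ∧ ‖R (x, t)‖ < ‖R (y₀, 0)‖ + 1 := by
    intro t ht
    refine hεq ?_
    rw [Prod.dist_eq]
    exact max_lt hxb ht
  have hpair : ∀ t : ℂ, AnalyticAt ℂ (fun u : ℂ => ((x, u) : ℂ × ℂ)) t := fun t =>
    analyticAt_const.prod analyticAt_id
  have hd : DifferentiableOn ℂ (fun t => R (x, t)) (ball 0 ε) := by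
    intro t ht
    have h2 : AnalyticAt ℂ (fun u : ℂ => R (x, u)) t :=
      (hball t ht).1.comp_of_eq (hpair t) rfl
    exact h2.differentiableAt.differentiableWithinAt
  refine coef_bd hε hd (fun t ht => (hball t ht).2.le) (c := fun i => s i x) (fun n => ?_) j
  have hc0 : ContinuousAt (fun t => R (x, t)) 0 :=
    (hd.differentiableAt (ball_mem_nhds 0 hε)).continuousAt
  rcases Nat.eq_zero_or_pos n with hn | hn
  · subst hn
    rw [Finset.range_zero]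
    refine IsBigO.congr_left (f₁ := fun t => R (x, t)) ?_ fun t => by
      rw [Finset.sum_empty, sub_zero]
    refine IsBigO.congr_right (g₁ := fun _ : ℂ => (1 : ℂ)) ?_ fun t => (pow_zero t).symm
    exact hc0.isBigO_one ℂ
  · have hs0 : (fun t : ℂ => ∑ i ∈ Finset.range n, s i x * t ^ i) 0 = 0 := by
      change ∑ i ∈ Finset.range n, s i x * (0 : ℂ) ^ i = 0
      refine Finset.sum_eq_zero fun i _ => ?_
      rcases Nat.eq_zero_or_pos i with hi | hi
      · rw [hi, h0 x hxU, zero_mul]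
      · rw [zero_pow hi.ne', mul_zero]
    have hroot : ∀ᶠ t in 𝓝 (0 : ℂ), dy F (x, R (x, t), t) = 0 := by
      have h3 : Tendsto (fun t : ℂ => ((x, t) : ℂ × ℂ)) (𝓝 0) (𝓝 (x, 0)) :=
        (hpair 0).continuousAt
      exact h3.eventually hx1.root
    exact close L hxU hxe hc0 (by fun_prop) hx1.zero.self_of_nhds hs0 hroot (h n hn x hxU)

theorem unif_bd {s : ℕ → ℂ → ℂ} {r r' : ℝ} (hr : 0 < r') (hrr : r' < r)
    (ha : ∀ j, AnalyticOnNhd ℂ (s j) (ball 0 r))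
    (h : ∀ y ∈ sphere (0 : ℂ) r', ∃ δ M : ℝ, 0 < δ ∧ 0 ≤ M ∧ ∀ᶠ x in 𝓝 y, ∀ j, ‖s j x‖ ≤ M / δ ^ j) :
    ∃ δ M : ℝ, 0 < δ ∧ 0 ≤ M ∧ ∀ x ∈ closedBall (0 : ℂ) r', ∀ j, ‖s j x‖ ≤ M / δ ^ j := by
  have h1 : ∃ δ M : ℝ, 0 < δ ∧ 0 ≤ M ∧ ∀ x ∈ sphere (0 : ℂ) r', ∀ j, ‖s j x‖ ≤ M / δ ^ j := by
    refine (isCompact_sphere (0 : ℂ) r').induction_on
      (p := fun S => ∃ δ M : ℝ, 0 < δ ∧ 0 ≤ M ∧ ∀ x ∈ S, ∀ j, ‖s j x‖ ≤ M / δ ^ j) ?_ ?_ ?_ ?_
    · exact ⟨1, 0, one_pos, le_rfl, fun x hx => absurd hx (Set.notMem_empty x)⟩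
    · rintro S T hST ⟨δ, M, hδ, hM, hT⟩
      exact ⟨δ, M, hδ, hM, fun x hx => hT x (hST hx)⟩
    · rintro S T ⟨δ, M, hδ, hM, hS⟩ ⟨δ', M', hδ', hM', hT⟩
      have hm : 0 < min δ δ' := lt_min hδ hδ'
      refine ⟨min δ δ', max M M', hm, hM.trans (le_max_left _ _), ?_⟩
      rintro x (hx | hx) j
      · refine (hS x hx j).trans ?_
        exact div_le_div₀ (hM.trans (le_max_left _ _)) (le_max_left _ _) (by positivity)
          (pow_le_pow_left₀ hm.le (min_le_left _ _) _)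
      · refine (hT x hx j).trans ?_
        exact div_le_div₀ (hM.trans (le_max_left _ _)) (le_max_right _ _) (by positivity)
          (pow_le_pow_left₀ hm.le (min_le_right _ _) _)
    · intro y hy
      obtain ⟨δ, M, hδ, hM, hyy⟩ := h y hy
      exact ⟨{x | ∀ j, ‖s j x‖ ≤ M / δ ^ j}, mem_nhdsWithin_of_mem_nhds hyy,
        δ, M, hδ, hM, fun x hx => hx⟩
  obtain ⟨δ, M, hδ, hM, h2⟩ := h1
  refine ⟨δ, M, hδ, hM, fun x hx j => ?_⟩
  have h3 : DiffContOnCl ℂ (s j) (ball 0 r') := by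
    refine DifferentiableOn.diffContOnCl ((ha j).differentiableOn.mono ?_)
    exact closure_ball_subset_closedBall.trans (closedBall_subset_ball hrr)
  refine Complex.norm_le_of_forall_mem_frontier_norm_le isBounded_ball h3 (fun z hz => ?_) ?_
  · rw [frontier_ball (0 : ℂ) hr.ne'] at hz
    exact h2 z hz j
  · rw [closure_ball (0 : ℂ) hr.ne']
    exact hx

end Pool.Agent.Lib.MP_d4bba2_ag.Loc
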